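import Mathlib

set_option autoImplicit false

open MeasureTheory Filter Topology

namespace Pool.Agent.H7.OneR

/-- slowly oscillating profile -/
noncomputable def h (L : ℝ) : ℝ := (1 - Real.exp (-L)) * Real.sin (Real.log (1 + L))

lemma abs_log_le {y : ℝ} (hy : |y| ≤ 1 / 2) : |Real.log (1 + y)| ≤ 2 * |y| := by
  obtain ⟨h1, h2⟩ := abs_le.1 hy
  have h3 : 0 < 1 + y := by linarith
  have h4 := Real.log_le_sub_one_of_pos h3
  have h5 := Real.one_sub_inv_le_log_of_pos h3
  have h6 : 1 - (1 + y)⁻¹ = y / (1 + y) := by field_simp; ring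
  rw [h6] at h5
  have h7 : -(2 * |y|) ≤ y / (1 + y) := by
    rw [le_div_iff₀ h3]
    rcases abs_cases y with ⟨h8, h9⟩ | ⟨h8, h9⟩
    · rw [h8]; nlinarith
    · rw [h8]; nlinarith
  rw [abs_le]
  refine ⟨h7.trans h5, ?_⟩
  have := le_abs_self y
  have := abs_nonneg y
  linarith

lemma core (θ K η : ℝ) (hK : 0 ≤ K) (hη : 0 < η) : ∃ Λ : ℝ, 0 < Λ ∧ K ≤ Λ ∧ ∀ L : ℝ, |L - Λ| ≤ K →
    Real.exp (-L) ≤ η ∧ ∃ (k : ℕ) (δ : ℝ), |δ| ≤ η ∧ Real.log (1 + L) = θ + k * (2 * Real.pi) + δ := by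
  have h1 : Tendsto (fun k : ℕ => Real.exp (θ + k * (2 * Real.pi)) - 1) atTop atTop := by
    have h2 : Tendsto (fun k : ℕ => θ + (k : ℝ) * (2 * Real.pi)) atTop atTop := by
      apply tendsto_atTop_add_const_left
      exact Tendsto.atTop_mul_const (by positivity) tendsto_natCast_atTop_atTop
    exact tendsto_atTop_add_const_right _ _ (Real.tendsto_exp_atTop.comp h2)
  obtain ⟨k, hk⟩ := (h1.eventually_ge_atTop (max (1 + K - Real.log η) (max (2 * K / η) (max (2 * K) (1 + K))))).exists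
  set Λ := Real.exp (θ + k * (2 * Real.pi)) - 1 with hΛ
  have g1 : 1 + K - Real.log η ≤ Λ := (le_max_left _ _).trans hk
  have g2 : 2 * K / η ≤ Λ := (le_max_left _ _).trans ((le_max_right _ _).trans hk)
  have g3 : 2 * K ≤ Λ := (le_max_left _ _).trans ((le_max_right _ _).trans ((le_max_right _ _).trans hk))
  have g4 : 1 + K ≤ Λ := (le_max_right _ _).trans ((le_max_right _ _).trans ((le_max_right _ _).trans hk))
  refine ⟨Λ, by linarith, by linarith, fun L hL => ?_⟩
  obtain ⟨l1, l2⟩ := abs_le.1 hL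
  have hM : 0 < 1 + Λ := by linarith
  constructor
  · rw [← Real.exp_log hη, Real.exp_le_exp]
    linarith
  · refine ⟨k, Real.log (1 + (L - Λ) / (1 + Λ)), ?_, ?_⟩
    · have h3 : |(L - Λ) / (1 + Λ)| ≤ K / (1 + Λ) := by
        rw [abs_div, abs_of_pos hM]
        exact div_le_div_of_nonneg_right hL hM.le
      have h4 : K / (1 + Λ) ≤ 1 / 2 := by
        rw [div_le_div_iff₀ hM (by norm_num)]; linarith
      have h5 : 2 * (K / (1 + Λ)) ≤ η := by
        rw [← mul_div_assoc, div_le_iff₀ hM]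
        rw [div_le_iff₀ hη] at g2
        nlinarith
      have := abs_log_le (h3.trans h4)
      linarith
    · have h3 : Real.log (1 + Λ) = θ + k * (2 * Real.pi) := by
        rw [hΛ, add_sub_cancel, Real.log_exp]
      rw [← h3, ← Real.log_mul (by linarith)]
      · congr 1; field_simp; ring
      · have : 0 < 1 + L := by linarith
        have : 1 + (L - Λ) / (1 + Λ) = (1 + L) / (1 + Λ) := by field_simp; ring
        rw [this]; positivity

lemma big (K c : ℝ) (hK : 0 ≤ K) (hc : c < 1) : ∃ Λ : ℝ, 0 < Λ ∧ K ≤ Λ ∧ ∀ L : ℝ, |L - Λ| ≤ K → c ≤ h L := by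
  set η := min ((1 - c) / 4) (1 / 2) with hη
  have hη0 : 0 < η := lt_min (by linarith) (by norm_num)
  have hη1 : η ≤ (1 - c) / 4 := min_le_left _ _
  have hη2 : η ≤ 1 / 2 := min_le_right _ _
  obtain ⟨Λ, h1, h2, h3⟩ := core (Real.pi / 2) K η hK hη0
  refine ⟨Λ, h1, h2, fun L hL => ?_⟩
  obtain ⟨h4, k, δ, h5, h6⟩ := h3 L hL
  unfold h
  have h7 : Real.sin (Real.log (1 + L)) = Real.cos δ := by
    rw [h6, show Real.pi / 2 + k * (2 * Real.pi) + δ = (δ + Real.pi / 2) + k * (2 * Real.pi) by ring,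
      Real.sin_add_nat_mul_two_pi, Real.sin_add_pi_div_two]
  have h8 := Real.one_sub_sq_div_two_le_cos (x := δ)
  have h9 : 1 - η ≤ Real.cos δ := by
    have : δ ^ 2 ≤ η ^ 2 := by rw [← sq_abs]; exact pow_le_pow_left₀ (abs_nonneg _) h5 2
    nlinarith
  rw [h7]
  have h10 : (1 - η) * (1 - η) ≤ (1 - Real.exp (-L)) * Real.cos δ :=
    mul_le_mul (by linarith) h9 (by linarith) (by linarith)
  nlinarith

lemma small (K c : ℝ) (hK : 0 ≤ K) (hc : -1 < c) : ∃ Λ : ℝ, 0 < Λ ∧ K ≤ Λ ∧ ∀ L : ℝ, |L - Λ| ≤ K → h L ≤ c := by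
  set η := min ((1 + c) / 4) (1 / 2) with hη
  have hη0 : 0 < η := lt_min (by linarith) (by norm_num)
  have hη1 : η ≤ (1 + c) / 4 := min_le_left _ _
  have hη2 : η ≤ 1 / 2 := min_le_right _ _
  obtain ⟨Λ, h1, h2, h3⟩ := core (-(Real.pi / 2)) K η hK hη0
  refine ⟨Λ, h1, h2, fun L hL => ?_⟩
  obtain ⟨h4, k, δ, h5, h6⟩ := h3 L hL
  unfold h
  have h7 : Real.sin (Real.log (1 + L)) = -Real.cos δ := by
    rw [h6, show -(Real.pi / 2) + k * (2 * Real.pi) + δ = (δ - Real.pi / 2) + k * (2 * Real.pi) by ring,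
      Real.sin_add_nat_mul_two_pi, Real.sin_sub_pi_div_two]
  have h8 := Real.one_sub_sq_div_two_le_cos (x := δ)
  have h9 : 1 - η ≤ Real.cos δ := by
    have : δ ^ 2 ≤ η ^ 2 := by rw [← sq_abs]; exact pow_le_pow_left₀ (abs_nonneg _) h5 2
    nlinarith
  rw [h7]
  have h10 : (1 - η) * (1 - η) ≤ (1 - Real.exp (-L)) * Real.cos δ :=
    mul_le_mul (by linarith) h9 (by linarith) (by linarith)
  nlinarith

lemma h_abs {L : ℝ} (hL : 0 ≤ L) : |h L| < 1 := by
  unfold h
  rw [abs_mul]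
  have h1 : 0 < Real.exp (-L) := Real.exp_pos _
  have h2 : Real.exp (-L) ≤ 1 := Real.exp_le_one_iff.2 (by linarith)
  rw [abs_of_nonneg (by linarith : 0 ≤ 1 - Real.exp (-L))]
  have h3 := Real.abs_sin_le_one (Real.log (1 + L))
  have h4 := abs_nonneg (Real.sin (Real.log (1 + L)))
  nlinarith

lemma h_cont : ContinuousOn h (Set.Ici 0) := by
  unfold h
  apply ContinuousOn.mul
  · fun_prop
  · apply Real.continuous_sin.comp_continuousOn
    apply ContinuousOn.log
    · fun_prop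
    · intro x hx
      have : (0 : ℝ) ≤ x := hx
      linarith

lemma h_meas : Measurable h := by unfold h; fun_prop

/-- pseudo-hyperbolic identity -/
lemma one_sub (a b : ℂ) (ha : Complex.normSq a < 1) (hb : Complex.normSq b < 1) :
    0 < Complex.normSq (1 - b * starRingEnd ℂ a) ∧
    1 - Complex.normSq ((1 - b * starRingEnd ℂ a)⁻¹ * (a - b)) =
      (1 - Complex.normSq a) * (1 - Complex.normSq b) / Complex.normSq (1 - b * starRingEnd ℂ a) := by
  have h1 : Complex.normSq (1 - b * starRingEnd ℂ a) - Complex.normSq (a - b) =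
      (1 - Complex.normSq a) * (1 - Complex.normSq b) := by
    simp only [Complex.normSq_apply, Complex.sub_re, Complex.sub_im, Complex.one_re, Complex.one_im,
      Complex.mul_re, Complex.mul_im, Complex.conj_re, Complex.conj_im]
    ring
  have h2 : 0 < Complex.normSq (1 - b * starRingEnd ℂ a) := by
    have := Complex.normSq_nonneg (a - b)
    nlinarith [mul_pos (sub_pos.2 ha) (sub_pos.2 hb)]
  refine ⟨h2, ?_⟩
  rw [Complex.normSq_mul, Complex.normSq_inv, ← h1]
  field_simp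

end Pool.Agent.H7.OneR
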