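import Pool.Agent.H7.OneR.Base

set_option autoImplicit false

open MeasureTheory Filter Topology

namespace Pool.Agent.H7.OneR

/-- the ball -/
def B : Set (Fin 1 → ℂ) := {z | ∑ j, Complex.normSq (z j) < 1}

/-- the automorphisms -/
noncomputable def ph (z w : Fin 1 → ℂ) : Fin 1 → ℂ :=
      (1 - ∑ j, w j * starRingEnd ℂ (z j))⁻¹ •
        (z - ((∑ j, w j * starRingEnd ℂ (z j)) / (∑ j, z j * starRingEnd ℂ (z j))) • z
          - ((Real.sqrt (1 - ∑ j, Complex.normSq (z j)) : ℝ) : ℂ) •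
            (w - ((∑ j, w j * starRingEnd ℂ (z j)) / (∑ j, z j * starRingEnd ℂ (z j))) • z))

/-- the function -/
noncomputable def u (z : Fin 1 → ℂ) : ℝ := h (-Real.log (1 - ∑ j, Complex.normSq (z j)))

/-- the scaled point -/
noncomputable def sp (r : ℝ) (x : Fin 1 → ℂ) : Fin 1 → ℂ :=
  ((r : ℂ) * ((Real.sqrt (∑ j, Complex.normSq (x j)) : ℝ) : ℂ)⁻¹) • x

lemma ph_zero (z w : Fin 1 → ℂ) (hz : Complex.normSq (z 0) < 1) :
    ph z w 0 = (1 - w 0 * starRingEnd ℂ (z 0))⁻¹ * (z 0 - w 0) := by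
  unfold ph
  simp only [Finset.univ_unique, Fin.default_eq_zero, Fin.isValue, Finset.sum_singleton, Pi.smul_apply,
    Pi.sub_apply, smul_eq_mul]
  by_cases h0 : z 0 = 0
  · rw [h0]; simp
  · have h1 : starRingEnd ℂ (z 0) ≠ 0 := by simpa using h0
    have h2 : w 0 * starRingEnd ℂ (z 0) / (z 0 * starRingEnd ℂ (z 0)) * z 0 = w 0 := by
      field_simp
    rw [h2, sub_self, mul_zero, sub_zero]

lemma sp_normSq {r : ℝ} {x : Fin 1 → ℂ} (hx : x 0 ≠ 0) : Complex.normSq (sp r x 0) = r ^ 2 := by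
  unfold sp
  simp only [Finset.univ_unique, Fin.default_eq_zero, Fin.isValue, Finset.sum_singleton, Pi.smul_apply, smul_eq_mul]
  rw [Complex.normSq_mul, Complex.normSq_mul, Complex.normSq_ofReal, ← Complex.ofReal_inv, Complex.normSq_ofReal]
  have h1 : 0 < Complex.normSq (x 0) := Complex.normSq_pos.2 hx
  have h2 : (Real.sqrt (Complex.normSq (x 0)))⁻¹ * (Real.sqrt (Complex.normSq (x 0)))⁻¹ = (Complex.normSq (x 0))⁻¹ := by
    rw [← mul_inv, Real.mul_self_sqrt h1.le]
  rw [h2]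
  field_simp

/-- the argument of the profile after the automorphism -/
noncomputable def ar (z : Fin 1 → ℂ) (r : ℝ) (x : Fin 1 → ℂ) : ℝ :=
  -Real.log (1 - Complex.normSq (z 0)) - Real.log (1 - r ^ 2) +
    Real.log (Complex.normSq (1 - sp r x 0 * starRingEnd ℂ (z 0)))

lemma u_ph {z x : Fin 1 → ℂ} (hz : Complex.normSq (z 0) < 1) {r : ℝ} (hr : r ^ 2 < 1) (hx : x 0 ≠ 0) :
    u (ph z (sp r x)) = h (ar z r x) ∧ 0 ≤ ar z r x := by
  have hb : Complex.normSq (sp r x 0) < 1 := by rw [sp_normSq hx]; exact hr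
  obtain ⟨h1, h2⟩ := one_sub (z 0) (sp r x 0) hz hb
  have h3 : -Real.log (1 - ∑ j, Complex.normSq (ph z (sp r x) j)) = ar z r x := by
    simp only [Finset.univ_unique, Fin.default_eq_zero, Fin.isValue, Finset.sum_singleton]
    rw [ph_zero z _ hz, h2, sp_normSq hx, Real.log_div, Real.log_mul]
    · unfold ar; ring
    · linarith
    · linarith
    · exact mul_ne_zero (by linarith) (by linarith)
    · exact h1.ne'
  constructor
  · unfold u; rw [h3]
  · rw [← h3]
    simp only [Finset.univ_unique, Fin.default_eq_zero, Fin.isValue, Finset.sum_singleton]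
    rw [ph_zero z _ hz]
    apply neg_nonneg.2
    apply Real.log_nonpos
    · rw [h2, sp_normSq hx]
      have : 0 < 1 - Complex.normSq (z 0) := by linarith
      have : 0 < 1 - r ^ 2 := by linarith
      positivity
    · have := Complex.normSq_nonneg ((1 - sp r x 0 * starRingEnd ℂ (z 0))⁻¹ * (z 0 - sp r x 0))
      linarith

lemma ar_close {z x : Fin 1 → ℂ} (hz : Complex.normSq (z 0) < 1) {r : ℝ} (hr : r ^ 2 < 1) (hx : x 0 ≠ 0) :
    |ar z r x - (-Real.log (1 - r ^ 2))| ≤ -Real.log (1 - Complex.normSq (z 0)) - 2 * Real.log (1 - ‖z 0‖) + 2 * Real.log 2 := by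
  have hz1 : ‖z 0‖ < 1 := by
    rw [Complex.normSq_eq_norm_sq] at hz
    nlinarith [norm_nonneg (z 0)]
  have hb : ‖sp r x 0‖ ≤ 1 := by
    have := sp_normSq (r := r) hx
    rw [Complex.normSq_eq_norm_sq] at this
    nlinarith [norm_nonneg (sp r x 0)]
  have h1 : ‖sp r x 0 * starRingEnd ℂ (z 0)‖ ≤ ‖z 0‖ := by
    rw [norm_mul, RCLike.norm_conj]
    nlinarith [norm_nonneg (z 0), norm_nonneg (sp r x 0)]
  have h2 : 1 - ‖z 0‖ ≤ ‖1 - sp r x 0 * starRingEnd ℂ (z 0)‖ := by
    have := norm_sub_norm_le (1 : ℂ) (sp r x 0 * starRingEnd ℂ (z 0))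
    rw [norm_one] at this
    linarith
  have h3 : ‖1 - sp r x 0 * starRingEnd ℂ (z 0)‖ ≤ 2 := by
    have := norm_sub_le (1 : ℂ) (sp r x 0 * starRingEnd ℂ (z 0))
    rw [norm_one] at this
    linarith
  have h4 : 0 < 1 - ‖z 0‖ := by linarith
  have h5 : Real.log (Complex.normSq (1 - sp r x 0 * starRingEnd ℂ (z 0))) =
      2 * Real.log ‖1 - sp r x 0 * starRingEnd ℂ (z 0)‖ := by
    rw [Complex.normSq_eq_norm_sq, Real.log_pow]; norm_num
  have h6 := Real.log_le_log h4 h2
  have h7 := Real.log_le_log (lt_of_lt_of_le h4 h2) h3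
  have h8 : Real.log (1 - ‖z 0‖) ≤ 0 := Real.log_nonpos h4.le (by linarith [norm_nonneg (z 0)])
  have h9 : Real.log (1 - Complex.normSq (z 0)) ≤ 0 := Real.log_nonpos (by linarith)
    (by linarith [Complex.normSq_nonneg (z 0)])
  have h10 : 0 ≤ Real.log 2 := Real.log_nonneg (by norm_num)
  unfold ar
  rw [h5, abs_le]
  constructor <;> linarith

lemma B_open : IsOpen B := by
  unfold B
  have h1 : Continuous fun z : Fin 1 → ℂ => ∑ j, Complex.normSq (z j) := by
    apply continuous_finsetSum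
    intro j _
    exact Complex.continuous_normSq.comp (continuous_apply j)
  exact isOpen_lt h1 continuous_const

lemma B_bdd : B ⊆ Metric.closedBall 0 1 := by
  intro z hz
  rw [mem_closedBall_zero_iff, pi_norm_le_iff_of_nonneg zero_le_one]
  intro i
  have h1 : Complex.normSq (z 0) < 1 := by simpa [B] using hz
  have h2 : i = 0 := Subsingleton.elim _ _
  rw [h2]
  rw [Complex.normSq_eq_norm_sq] at h1
  nlinarith [norm_nonneg (z 0)]

instance : IsFiniteMeasure ((volume : Measure (Fin 1 → ℂ)).restrict B) := by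
  refine ⟨?_⟩
  rw [Measure.restrict_apply MeasurableSet.univ, Set.univ_inter]
  exact lt_of_le_of_lt (measure_mono B_bdd) (isCompact_closedBall _ _).measure_lt_top

instance : NeZero ((volume : Measure (Fin 1 → ℂ)).restrict B) := by
  refine ⟨fun h0 => ?_⟩
  have h1 : (volume : Measure (Fin 1 → ℂ)) B = 0 := by
    have := congrArg (fun m : Measure (Fin 1 → ℂ) => m Set.univ) h0
    simpa using this
  exact (B_open.measure_pos volume ⟨0, by simp [B]⟩).ne' h1

/-- normalised measure -/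
noncomputable def nu : Measure (Fin 1 → ℂ) :=
  (((volume : Measure (Fin 1 → ℂ)).restrict B) Set.univ)⁻¹ • ((volume : Measure (Fin 1 → ℂ)).restrict B)

instance : IsProbabilityMeasure nu := by unfold nu; infer_instance

lemma ae_ne : ∀ᵐ x ∂nu, x 0 ≠ 0 := by
  have h1 : ∀ᵐ x ∂(volume : Measure (Fin 1 → ℂ)), x ≠ 0 := by
    rw [ae_iff]; simp
  have h2 : ∀ᵐ x ∂nu, x ≠ 0 := by
    unfold nu
    apply Measure.ae_smul_measure
    exact ae_restrict_of_ae h1
  filter_upwards [h2] with x hx h0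
  apply hx
  funext i
  have : i = 0 := Subsingleton.elim _ _
  rw [this]; exact h0

lemma F_meas (z : Fin 1 → ℂ) (r : ℝ) : Measurable fun x => u (ph z (sp r x)) := by
  unfold u ph sp
  apply h_meas.comp
  simp only [Finset.univ_unique, Fin.default_eq_zero, Fin.isValue, Finset.sum_singleton, Pi.smul_apply,
    Pi.sub_apply, smul_eq_mul]
  fun_prop

/-- the mean -/
noncomputable def G (z : Fin 1 → ℂ) (r : ℝ) : ℝ := ∫ x, u (ph z (sp r x)) ∂nu

lemma F_bdd {z : Fin 1 → ℂ} (hz : Complex.normSq (z 0) < 1) {r : ℝ} (hr : r ^ 2 < 1) :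
    ∀ᵐ x ∂nu, ‖u (ph z (sp r x))‖ ≤ 1 := by
  filter_upwards [ae_ne] with x hx
  obtain ⟨h1, h2⟩ := u_ph hz hr hx
  rw [h1]
  exact (h_abs h2).le

lemma F_int {z : Fin 1 → ℂ} (hz : Complex.normSq (z 0) < 1) {r : ℝ} (hr : r ^ 2 < 1) :
    Integrable (fun x => u (ph z (sp r x))) nu :=
  Integrable.of_bound (F_meas z r).aestronglyMeasurable 1 (F_bdd hz hr)

lemma G_cont {z : Fin 1 → ℂ} (hz : Complex.normSq (z 0) < 1) {a b : ℝ} (ha : 0 < a) (hb : b < 1) :
    ContinuousOn (G z) (Set.Icc a b) := by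
  have hsq : ∀ r ∈ Set.Icc a b, r ^ 2 < 1 := by
    intro r hr
    have h1 : 0 < r := lt_of_lt_of_le ha hr.1
    have h2 : r < 1 := lt_of_le_of_lt hr.2 hb
    nlinarith
  unfold G
  refine continuousOn_of_dominated (bound := fun _ => 1) (fun r _ => (F_meas z r).aestronglyMeasurable)
    (fun r hr => F_bdd hz (hsq r hr)) (integrable_const _) ?_
  filter_upwards [ae_ne] with x hx
  have h1 : Set.EqOn (fun r => u (ph z (sp r x))) (fun r => h (ar z r x)) (Set.Icc a b) :=
    fun r hr => (u_ph hz (hsq r hr) hx).1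
  refine ContinuousOn.congr ?_ h1
  refine h_cont.comp ?_ (fun r hr => (u_ph hz (hsq r hr) hx).2)
  unfold ar
  apply ContinuousOn.add
  · apply ContinuousOn.sub continuousOn_const
    apply ContinuousOn.log
    · fun_prop
    · intro r hr
      have := hsq r hr
      linarith
  · apply ContinuousOn.log
    · apply Continuous.continuousOn
      apply Complex.continuous_normSq.comp
      apply Continuous.sub continuous_const
      apply Continuous.mul _ continuous_const
      unfold sp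
      simp only [Pi.smul_apply, smul_eq_mul]
      fun_prop
    · intro r hr
      have hb' : Complex.normSq (sp r x 0) < 1 := by rw [sp_normSq hx]; exact hsq r hr
      exact (one_sub (z 0) (sp r x 0) hz hb').1.ne'

lemma exists_r {Λ : ℝ} (hΛ : 0 < Λ) : ∃ r : ℝ, 0 < r ∧ r < 1 ∧ -Real.log (1 - r ^ 2) = Λ := by
  have h1 : Real.exp (-Λ) < 1 := Real.exp_lt_one_iff.2 (by linarith)
  have h2 := Real.exp_pos (-Λ)
  refine ⟨Real.sqrt (1 - Real.exp (-Λ)), Real.sqrt_pos.2 (by linarith), ?_, ?_⟩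
  · rw [Real.sqrt_lt' one_pos]; linarith
  · rw [Real.sq_sqrt (by linarith), sub_sub_cancel, Real.log_exp, neg_neg]

theorem one_radius {z : Fin 1 → ℂ} (hz : Complex.normSq (z 0) < 1) :
    ∃ r : ℝ, 0 < r ∧ r < 1 ∧ u z = G z r := by
  set K := -Real.log (1 - Complex.normSq (z 0)) - 2 * Real.log (1 - ‖z 0‖) + 2 * Real.log 2 with hK
  have hK0 : 0 ≤ K := by
    have hz1 : ‖z 0‖ < 1 := by
      rw [Complex.normSq_eq_norm_sq] at hz
      nlinarith [norm_nonneg (z 0)]
    have h8 : Real.log (1 - ‖z 0‖) ≤ 0 := Real.log_nonpos (by linarith) (by linarith [norm_nonneg (z 0)])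
    have h9 : Real.log (1 - Complex.normSq (z 0)) ≤ 0 := Real.log_nonpos (by linarith)
      (by linarith [Complex.normSq_nonneg (z 0)])
    have h10 : 0 ≤ Real.log 2 := Real.log_nonneg (by norm_num)
    linarith
  have hu : |u z| < 1 := by
    unfold u
    apply h_abs
    simp only [Finset.univ_unique, Fin.default_eq_zero, Fin.isValue, Finset.sum_singleton]
    apply neg_nonneg.2
    exact Real.log_nonpos (by linarith) (by linarith [Complex.normSq_nonneg (z 0)])
  obtain ⟨hu1, hu2⟩ := abs_lt.1 hu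
  obtain ⟨Λ1, hΛ1, _, hb1⟩ := big K ((1 + u z) / 2) hK0 (by linarith)
  obtain ⟨Λ2, hΛ2, _, hb2⟩ := small K ((u z - 1) / 2) hK0 (by linarith)
  obtain ⟨r1, r1a, r1b, hr1⟩ := exists_r hΛ1
  obtain ⟨r2, r2a, r2b, hr2⟩ := exists_r hΛ2
  have s1 : r1 ^ 2 < 1 := by nlinarith
  have s2 : r2 ^ 2 < 1 := by nlinarith
  have g1 : (1 + u z) / 2 ≤ G z r1 := by
    unfold G
    have h1 : ∫ _ : Fin 1 → ℂ, (1 + u z) / 2 ∂nu = (1 + u z) / 2 := by simp
    rw [← h1]
    apply integral_mono_ae (integrable_const _) (F_int hz s1)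
    filter_upwards [ae_ne] with x hx
    rw [(u_ph hz s1 hx).1]
    apply hb1
    rw [← hr1]
    exact ar_close hz s1 hx
  have g2 : G z r2 ≤ (u z - 1) / 2 := by
    unfold G
    have h1 : ∫ _ : Fin 1 → ℂ, (u z - 1) / 2 ∂nu = (u z - 1) / 2 := by simp
    rw [← h1]
    apply integral_mono_ae (F_int hz s2) (integrable_const _)
    filter_upwards [ae_ne] with x hx
    rw [(u_ph hz s2 hx).1]
    apply hb2
    rw [← hr2]
    exact ar_close hz s2 hx
  have hc : ContinuousOn (G z) (Set.uIcc r2 r1) :=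
    G_cont hz (a := min r2 r1) (b := max r2 r1) (lt_min r2a r1a) (max_lt r2b r1b)
  have hmem : u z ∈ Set.uIcc (G z r2) (G z r1) := by
    rw [Set.mem_uIcc]; left; constructor <;> linarith
  obtain ⟨r, hr, hGr⟩ := intermediate_value_uIcc hc hmem
  refine ⟨r, ?_, ?_, hGr.symm⟩
  · exact lt_of_lt_of_le (lt_min r2a r1a) hr.1
  · exact lt_of_le_of_lt hr.2 (max_lt r2b r1b)

theorem not_harmonic : ∃ r : ℝ, 0 < r ∧ r < 1 ∧ u 0 ≠ G 0 r := by
  obtain ⟨r, hr0, hr1, hr⟩ := exists_r (Λ := 1) one_pos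
  refine ⟨r, hr0, hr1, ?_⟩
  have hz : Complex.normSq ((0 : Fin 1 → ℂ) 0) < 1 := by simp
  have s1 : r ^ 2 < 1 := by nlinarith
  have h1 : G 0 r = h 1 := by
    unfold G
    have h2 : ∫ _ : Fin 1 → ℂ, h 1 ∂nu = h 1 := by simp
    rw [← h2]
    apply integral_congr_ae
    filter_upwards [ae_ne] with x hx
    rw [(u_ph hz s1 hx).1]
    congr 1
    unfold ar
    simp [hr]
  have h2 : u 0 = 0 := by
    unfold u h; simp
  rw [h1, h2]
  unfold h
  have h3 : Real.exp (-1) < 1 := Real.exp_lt_one_iff.2 (by norm_num)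
  have h4 : 0 < Real.log (1 + 1) := Real.log_pos (by norm_num)
  have h5 : Real.log (1 + 1) < Real.pi := by
    have := Real.log_two_lt_d9
    have := Real.pi_gt_three
    norm_num at *
    linarith
  have h6 := Real.sin_pos_of_pos_of_lt_pi h4 h5
  have : 0 < (1 - Real.exp (-1)) * Real.sin (Real.log (1 + 1)) := mul_pos (by linarith) h6
  exact this.ne

lemma u_cont : ContinuousOn u B := by
  unfold u
  refine h_cont.comp ?_ ?_
  · apply ContinuousOn.neg
    apply ContinuousOn.log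
    · apply Continuous.continuousOn
      apply Continuous.sub continuous_const
      apply continuous_finsetSum
      intro j _
      exact Complex.continuous_normSq.comp (continuous_apply j)
    · intro z hz
      have : ∑ j, Complex.normSq (z j) < 1 := hz
      linarith
  · intro z hz
    have h1 : ∑ j, Complex.normSq (z j) < 1 := hz
    have h2 : 0 ≤ ∑ j, Complex.normSq (z j) := Finset.sum_nonneg fun j _ => Complex.normSq_nonneg _
    exact neg_nonneg.2 (Real.log_nonpos (by linarith) (by linarith))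

lemma u_bdd {z : Fin 1 → ℂ} (hz : z ∈ B) : |u z| ≤ 1 := by
  unfold u
  have h1 : ∑ j, Complex.normSq (z j) < 1 := hz
  have h2 : 0 ≤ ∑ j, Complex.normSq (z j) := Finset.sum_nonneg fun j _ => Complex.normSq_nonneg _
  exact (h_abs (neg_nonneg.2 (Real.log_nonpos (by linarith) (by linarith)))).le

end Pool.Agent.H7.OneR
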